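import Mathlib

/-!
# Valence of the gradient of a truncated convex Morse function

The radial function `f x = s - s² / 4 + s³ / 30`, `s = ‖x‖²`, on `ℝ²` satisfies (H), has exactly
one critical point and `Hess⁺(f)` without the set `f > scl(f)` is connected, so the second
equality fails; the valence of the gradient is at least three, so the first equality fails, too.
-/

namespace Pool.Agent.Results.MP_d7bb9e_an.ValenceCounterexample

open Set Filter
open scoped Topology

/-- Euclidean space. -/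
abbrev E (n : ℕ) := EuclideanSpace ℝ (Fin n)

/-- Truncation at level `q`. -/
noncomputable def T {n : ℕ} (f : E n → ℝ) (q : ℝ) (x : E n) : ℝ := max q (f x)

/-- The convexity levels: `q ≥ inf f` and all truncations at levels `≥ q` are convex. -/
def levels {n : ℕ} (f : E n → ℝ) : Set ℝ :=
  {q | (⨅ x, (f x : EReal)) ≤ (q : EReal) ∧ ∀ r : ℝ, q ≤ r → ConvexOn ℝ univ (T f r)}

/-- The Hessian as a bilinear form. -/
noncomputable def hess {n : ℕ} (f : E n → ℝ) (x : E n) (v w : E n) : ℝ :=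
  fderiv ℝ (fderiv ℝ f) x v w

/-- Points where the Hessian is positive definite. -/
def HessPos {n : ℕ} (f : E n → ℝ) : Set (E n) := {x | ∀ v : E n, v ≠ 0 → 0 < hess f x v v}

/-- The critical set. -/
def Crit {n : ℕ} (f : E n → ℝ) : Set (E n) := {x | gradient f x = 0}

/-- The Hessian is nonsingular at all critical points. -/
def IsMorse {n : ℕ} (f : E n → ℝ) : Prop :=
  ∀ x ∈ Crit f, ∀ v : E n, (∀ w : E n, hess f x v w = 0) → v = 0

/-- The valence of a map. -/
noncomputable def Val {n : ℕ} (F : E n → E n) : ℕ∞ := ⨆ y, (F ⁻¹' {y}).encard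

/-- Hypotheses (H), with `c = scl f`. -/
structure HypH {n : ℕ} (f : E n → ℝ) (c : ℝ) : Prop where
  smooth : ContDiff ℝ 2 f
  morse : IsMorse f
  not_convex : ¬ ConvexOn ℝ univ f
  truncated_convex : (levels f).Nonempty
  scl : IsGLB (levels f) c
  mem_range : c ∈ range f
  regular : ∀ x, f x = c → x ∉ Crit f
  subset_hess : {x | c < f x} ⊆ HessPos f

/-! ### The one-variable functions -/

/-- The polynomial of `s = r²`. -/
noncomputable def P (s : ℝ) : ℝ := s - s ^ 2 / 4 + s ^ 3 / 30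

/-- First derivative. -/
noncomputable def P1 (s : ℝ) : ℝ := 1 - s / 2 + s ^ 2 / 10

/-- Second derivative. -/
noncomputable def P2 (s : ℝ) : ℝ := -(1 / 2) + s / 5

lemma hasDerivAt_P (s : ℝ) : HasDerivAt P (P1 s) s := by
  have h1 := ((hasDerivAt_id' s).fun_sub (((hasDerivAt_id' s).fun_pow 2).div_const 4)).fun_add
    (((hasDerivAt_id' s).fun_pow 3).div_const 30)
  unfold P P1
  refine h1.congr_deriv ?_
  norm_num
  ring

lemma hasDerivAt_P1 (s : ℝ) : HasDerivAt P1 (P2 s) s := by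
  have h1 := ((hasDerivAt_const s (1:ℝ)).fun_sub ((hasDerivAt_id' s).div_const 2)).fun_add
    (((hasDerivAt_id' s).fun_pow 2).div_const 10)
  unfold P1 P2
  refine h1.congr_deriv ?_
  norm_num
  ring

lemma P1_pos (s : ℝ) : 0 < P1 s := by
  unfold P1
  nlinarith [sq_nonneg (s - 5 / 2)]

lemma P_strictMono : StrictMono P := by
  intro s t hst
  have h : P t - P s = (t - s) * (1 - (s + t) / 4 + (s ^ 2 + s * t + t ^ 2) / 30) := by
    unfold P; ring
  have h2 : 0 < 1 - (s + t) / 4 + (s ^ 2 + s * t + t ^ 2) / 30 := by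
    nlinarith [sq_nonneg (s + t - 5), sq_nonneg (s - t)]
  have h3 := mul_pos (sub_pos.mpr hst) h2
  linarith

/-- The radial profile. -/
noncomputable def h (r : ℝ) : ℝ := r ^ 2 - r ^ 4 / 4 + r ^ 6 / 30

lemma h_eq (r : ℝ) : h r = P (r ^ 2) := by unfold h P; ring

lemma deriv_h : deriv h = fun r => 2 * r - r ^ 3 + r ^ 5 / 5 := by
  funext r
  have h1 : HasDerivAt h (2 * r - r ^ 3 + r ^ 5 / 5) r := by
    have := (((hasDerivAt_id' r).fun_pow 2).fun_sub
      (((hasDerivAt_id' r).fun_pow 4).div_const 4)).fun_add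
      (((hasDerivAt_id' r).fun_pow 6).div_const 30)
    unfold h
    refine this.congr_deriv ?_
    norm_num
    ring
  exact h1.deriv

lemma deriv2_h (r : ℝ) : deriv^[2] h r = (1 - r ^ 2) * (2 - r ^ 2) := by
  have e : deriv^[2] h = deriv (deriv h) := rfl
  rw [e, deriv_h]
  have h1 : HasDerivAt (fun r : ℝ => 2 * r - r ^ 3 + r ^ 5 / 5) ((1 - r ^ 2) * (2 - r ^ 2)) r := by
    have := (((hasDerivAt_id' r).const_mul 2).fun_sub ((hasDerivAt_id' r).fun_pow 3)).fun_add
      (((hasDerivAt_id' r).fun_pow 5).div_const 5)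
    refine this.congr_deriv ?_
    norm_num
    ring
  exact h1.deriv

lemma continuous_h : Continuous h := by unfold h; fun_prop

lemma h_mono {r s : ℝ} (hr : 0 ≤ r) (hrs : r ≤ s) : h r ≤ h s := by
  rw [h_eq, h_eq]
  exact P_strictMono.monotone (by nlinarith)

lemma h_convex : ConvexOn ℝ (Ici (Real.sqrt 2)) h := by
  apply convexOn_of_deriv2_nonneg (convex_Ici _) continuous_h.continuousOn
  · have : Differentiable ℝ h := by unfold h; fun_prop
    exact this.differentiableOn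
  · rw [deriv_h]
    have : Differentiable ℝ (fun r : ℝ => 2 * r - r ^ 3 + r ^ 5 / 5) := by fun_prop
    exact this.differentiableOn
  · intro x hx
    rw [interior_Ici, mem_Ioi] at hx
    rw [deriv2_h]
    have h2 : 2 < x ^ 2 := by
      have := Real.sq_sqrt (show (0:ℝ) ≤ 2 by norm_num)
      nlinarith [Real.sqrt_nonneg 2]
    nlinarith

lemma h_concave : StrictConcaveOn ℝ (Icc 1 (Real.sqrt 2)) h := by
  apply strictConcaveOn_of_deriv2_neg (convex_Icc _ _) continuous_h.continuousOn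
  intro x hx
  rw [interior_Icc, mem_Ioo] at hx
  rw [deriv2_h]
  have h2 : x ^ 2 < 2 := by
    have := Real.sq_sqrt (show (0:ℝ) ≤ 2 by norm_num)
    nlinarith [Real.sqrt_nonneg 2]
  have h3 : 1 < x ^ 2 := by nlinarith [hx.1]
  exact mul_neg_of_neg_of_pos (by linarith) (by linarith)

/-! ### The function on the plane -/

/-- The counterexample. -/
noncomputable def f (x : E 2) : ℝ := P (‖x‖ ^ 2)

lemma f_eq (x : E 2) : f x = h ‖x‖ := by rw [h_eq]; rfl

lemma hasFDerivAt_f (x : E 2) :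
    HasFDerivAt f ((2 * P1 (‖x‖ ^ 2)) • (innerSL ℝ x)) x := by
  have h1 := (hasStrictFDerivAt_norm_sq x).hasFDerivAt
  have h2 := (hasDerivAt_P (‖x‖ ^ 2)).comp_hasFDerivAt x h1
  have e : (2 * P1 (‖x‖ ^ 2)) • (innerSL ℝ x) = P1 (‖x‖ ^ 2) • (2 • (innerSL ℝ x)) := by
    ext z
    simp
    ring
  rw [e]
  exact h2

lemma fderiv_f : fderiv ℝ f = fun x => (2 * P1 (‖x‖ ^ 2)) • (innerSL ℝ x) := by
  funext x
  exact (hasFDerivAt_f x).fderiv

lemma hess_f (x v w : E 2) :
    hess f x v w = 2 * P1 (‖x‖ ^ 2) * inner ℝ v w + 4 * P2 (‖x‖ ^ 2) * inner ℝ x v * inner ℝ x w := by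
  unfold hess
  rw [fderiv_f]
  have h1 := (hasStrictFDerivAt_norm_sq x).hasFDerivAt
  have h2 := ((hasDerivAt_P1 (‖x‖ ^ 2)).comp_hasFDerivAt x h1).const_mul 2
  have h3 : HasFDerivAt (fun x : E 2 => (innerSL ℝ x : E 2 →L[ℝ] ℝ))
      (innerSL ℝ : E 2 →L[ℝ] E 2 →L[ℝ] ℝ) x := (innerSL ℝ).hasFDerivAt
  have h4 := h2.smul h3
  have h5 := h4.fderiv
  have e : (fun x : E 2 => (2 * P1 (‖x‖ ^ 2)) • (innerSL ℝ x))
      = ((fun x : E 2 => 2 * (P1 ∘ fun x => ‖x‖ ^ 2) x) • fun x : E 2 => (innerSL ℝ x)) := by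
    funext x
    simp
  have e2 : ((innerSL ℝ : E 2 →L[ℝ] E 2 →L[ℝ] ℝ) v) w = inner ℝ v w := rfl
  rw [e, h5]
  simp
  rw [e2]
  ring

lemma gradient_f (x : E 2) : gradient f x = (2 * P1 (‖x‖ ^ 2)) • x := by
  have h1 : HasGradientAt f ((2 * P1 (‖x‖ ^ 2)) • x) x := by
    rw [hasGradientAt_iff_hasFDerivAt]
    have e : (InnerProductSpace.toDual ℝ (E 2)) ((2 * P1 (‖x‖ ^ 2)) • x)
        = (2 * P1 (‖x‖ ^ 2)) • (innerSL ℝ x) := by
      ext z
      rw [InnerProductSpace.toDual_apply_apply, inner_smul_left]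
      simp
    rw [e]
    exact hasFDerivAt_f x
  exact h1.gradient

lemma crit_f : Crit f = {0} := by
  ext x
  unfold Crit
  simp only [mem_ofPred_eq, mem_singleton_iff]
  rw [gradient_f]
  constructor
  · intro h0
    rcases smul_eq_zero.mp h0 with h1 | h1
    · have := P1_pos (‖x‖ ^ 2)
      linarith
    · exact h1
  · rintro rfl
    simp

lemma hessPos_f : HessPos f = {x | ‖x‖ ^ 2 < 1 ∨ 2 < ‖x‖ ^ 2} := by
  ext x
  unfold HessPos
  simp only [mem_ofPred_eq]
  set s := ‖x‖ ^ 2 with hs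
  have hs0 : 0 ≤ s := by positivity
  constructor
  · intro h0
    by_contra hcon
    push Not at hcon
    have hx : x ≠ 0 := by
      rintro rfl
      simp at hs
      linarith [hcon.1]
    have h1 := h0 x hx
    rw [hess_f, real_inner_self_eq_norm_sq, ← hs] at h1
    have h2 : 2 * P1 s * s + 4 * P2 s * s * s = s * ((1 - s) * (2 - s)) := by
      unfold P1 P2; ring
    rw [h2] at h1
    have h3 : (1 - s) * (2 - s) ≤ 0 := mul_nonpos_of_nonpos_of_nonneg (by linarith [hcon.1])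
      (by linarith [hcon.2])
    nlinarith
  · intro h0 v hv
    rw [hess_f, ← hs, real_inner_self_eq_norm_sq]
    have hv2 : 0 < ‖v‖ ^ 2 := by
      have := norm_pos_iff.mpr hv
      positivity
    have hcs : (inner ℝ x v : ℝ) ^ 2 ≤ s * ‖v‖ ^ 2 := by
      rw [hs, ← mul_pow, ← sq_abs (inner ℝ x v)]
      exact pow_le_pow_left₀ (abs_nonneg _) (abs_real_inner_le_norm x v) 2
    have hpos : 0 < (1 - s) * (2 - s) := by
      rcases h0 with h0 | h0 <;> nlinarith
    have h1 : 2 * P1 s + 4 * P2 s * s = (1 - s) * (2 - s) := by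
      unfold P1 P2; ring
    have hP1 := P1_pos s
    have h4 : 4 * P2 s * inner ℝ x v * inner ℝ x v = 4 * P2 s * (inner ℝ x v) ^ 2 := by ring
    rw [h4]
    rcases le_or_gt 0 (P2 s) with h2 | h2
    · have : 0 ≤ 4 * P2 s * (inner ℝ x v : ℝ) ^ 2 := by positivity
      nlinarith
    · have h5 : 4 * P2 s * (s * ‖v‖ ^ 2) ≤ 4 * P2 s * (inner ℝ x v : ℝ) ^ 2 := by nlinarith
      have h6 : 0 < ‖v‖ ^ 2 * ((1 - s) * (2 - s)) := by positivity
      rw [← h1] at h6
      nlinarith

/-- The unit vector. -/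
noncomputable def e1 : E 2 := !₂[1, 0]

lemma norm_e1 : ‖e1‖ = 1 := by
  have h1 : ‖e1‖ ^ 2 = 1 := by
    rw [EuclideanSpace.real_norm_sq_eq, Fin.sum_univ_two]
    simp [e1]
  have h2 := norm_nonneg e1
  nlinarith

lemma norm_smul_e1 {r : ℝ} (hr : 0 ≤ r) : ‖r • e1‖ = r := by
  rw [norm_smul, norm_e1, Real.norm_of_nonneg hr, mul_one]

lemma h_sqrt2 : h (Real.sqrt 2) = 19 / 15 := by
  rw [h_eq, Real.sq_sqrt (by norm_num)]
  unfold P
  norm_num

lemma T_convex {q : ℝ} (hq : 19 / 15 ≤ q) : ConvexOn ℝ univ (T f q) := by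
  have e : T f q = fun x => max q (h (max ‖x‖ (Real.sqrt 2))) := by
    funext x
    unfold T
    rw [f_eq]
    rcases le_total (Real.sqrt 2) ‖x‖ with h1 | h1
    · rw [max_eq_left h1]
    · rw [max_eq_right h1]
      have h2 : h ‖x‖ ≤ h (Real.sqrt 2) := h_mono (norm_nonneg _) h1
      rw [h_sqrt2] at h2 ⊢
      rw [max_eq_left (h2.trans hq), max_eq_left hq]
  rw [e]
  apply (convexOn_const q convex_univ).sup
  refine ⟨convex_univ, ?_⟩
  intro x _ y _ a b ha hb hab
  simp only [smul_eq_mul]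
  have s2 := Real.sqrt_nonneg 2
  have h1 : max ‖a • x + b • y‖ (Real.sqrt 2)
      ≤ a * max ‖x‖ (Real.sqrt 2) + b * max ‖y‖ (Real.sqrt 2) := by
    apply max_le
    · calc ‖a • x + b • y‖ ≤ ‖a • x‖ + ‖b • y‖ := norm_add_le _ _
        _ = a * ‖x‖ + b * ‖y‖ := by
          rw [norm_smul, norm_smul, Real.norm_of_nonneg ha, Real.norm_of_nonneg hb]
        _ ≤ _ := add_le_add (mul_le_mul_of_nonneg_left (le_max_left _ _) ha)
          (mul_le_mul_of_nonneg_left (le_max_left _ _) hb)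
    · calc Real.sqrt 2 = a * Real.sqrt 2 + b * Real.sqrt 2 := by rw [← add_mul, hab, one_mul]
        _ ≤ _ := add_le_add (mul_le_mul_of_nonneg_left (le_max_right _ _) ha)
          (mul_le_mul_of_nonneg_left (le_max_right _ _) hb)
  have h2 := h_mono (le_max_of_le_right s2) h1
  have h3 := h_convex.2 (mem_Ici.mpr (le_max_right ‖x‖ (Real.sqrt 2)))
    (mem_Ici.mpr (le_max_right ‖y‖ (Real.sqrt 2))) ha hb hab
  simp only [smul_eq_mul] at h3
  linarith

lemma T_not_convex {q : ℝ} (hq : q < 19 / 15) : ¬ ConvexOn ℝ univ (T f q) := by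
  intro hc
  have s2 : 1 < Real.sqrt 2 := by
    rw [show (1:ℝ) = Real.sqrt 1 by simp]
    exact Real.sqrt_lt_sqrt (by norm_num) (by norm_num)
  -- a point to the left of √2 with large value
  have h1 : ∀ᶠ a in 𝓝[<] (Real.sqrt 2), q < h a := by
    have := continuous_h.tendsto (Real.sqrt 2)
    rw [h_sqrt2] at this
    exact (this.mono_left nhdsWithin_le_nhds).eventually (lt_mem_nhds hq)
  have h2 : ∀ᶠ a in 𝓝[<] (Real.sqrt 2), a ∈ Ioo 1 (Real.sqrt 2) := Ioo_mem_nhdsLT s2
  obtain ⟨a, ha1, ha2⟩ := (h1.and h2).exists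
  have h3 := hc.2 (mem_univ (a • e1)) (mem_univ (Real.sqrt 2 • e1))
    (show (0:ℝ) ≤ 1 / 2 by norm_num) (show (0:ℝ) ≤ 1 / 2 by norm_num) (by norm_num)
  have h4 : (1 / 2 : ℝ) • (a • e1) + (1 / 2 : ℝ) • (Real.sqrt 2 • e1)
      = ((1 / 2 : ℝ) * a + (1 / 2) * Real.sqrt 2) • e1 := by module
  rw [h4] at h3
  have ha0 : 0 ≤ a := by linarith [ha2.1]
  unfold T at h3
  rw [f_eq, f_eq, f_eq, norm_smul_e1 ha0, norm_smul_e1 (Real.sqrt_nonneg 2),
    norm_smul_e1 (by positivity), h_sqrt2, max_eq_right ha1.le, max_eq_right hq.le] at h3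
  have h5 := h_concave.2 (show a ∈ Icc 1 (Real.sqrt 2) from ⟨ha2.1.le, ha2.2.le⟩)
    (show Real.sqrt 2 ∈ Icc 1 (Real.sqrt 2) from ⟨s2.le, le_rfl⟩) ha2.2.ne
    (show (0:ℝ) < 1 / 2 by norm_num) (show (0:ℝ) < 1 / 2 by norm_num) (by norm_num)
  simp only [smul_eq_mul] at h3 h5
  rw [h_sqrt2] at h5
  have h6 := le_max_right q (h (1 / 2 * a + 1 / 2 * Real.sqrt 2))
  linarith

lemma isLeast_levels : IsLeast (levels f) (19 / 15) := by
  constructor
  · refine ⟨?_, fun r hr => T_convex hr⟩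
    refine (iInf_le _ (0 : E 2)).trans ?_
    rw [EReal.coe_le_coe_iff]
    simp [f, P]
    norm_num
  · rintro q ⟨_, hq⟩
    by_contra hcon
    exact T_not_convex (not_le.mp hcon) (hq q le_rfl)

lemma hypH_f : HypH f (19 / 15) := by
  refine ⟨?_, ?_, ?_, ⟨_, isLeast_levels.1⟩, isLeast_levels.isGLB, ?_, ?_, ?_⟩
  · have h1 : ContDiff ℝ 2 (fun x : E 2 => ‖x‖ ^ 2) := contDiff_norm_sq ℝ
    have h2 : ContDiff ℝ 2 P := by unfold P; fun_prop
    exact h2.comp h1
  · intro x hx v hv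
    rw [crit_f, mem_singleton_iff] at hx
    have h1 := hv v
    rw [hess_f, hx, real_inner_self_eq_norm_sq] at h1
    simp [P1] at h1
    exact h1
  · intro hc
    exact T_not_convex (q := 0) (by norm_num) ((convexOn_const 0 convex_univ).sup hc)
  · refine ⟨Real.sqrt 2 • e1, ?_⟩
    rw [f_eq, norm_smul_e1 (Real.sqrt_nonneg 2), h_sqrt2]
  · intro x hx hcrit
    rw [crit_f, mem_singleton_iff] at hcrit
    rw [hcrit] at hx
    simp [f, P] at hx
    norm_num at hx
  · intro x hx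
    have hx' : 19 / 15 < f x := hx
    rw [hessPos_f]
    right
    by_contra hcon
    have h1 : f x ≤ P 2 := P_strictMono.monotone (not_lt.mp hcon)
    have h2 : P 2 = 19 / 15 := by unfold P; norm_num
    linarith

lemma region_eq : HessPos f \ {x | 19 / 15 < f x} = Metric.ball (0 : E 2) 1 := by
  ext x
  rw [hessPos_f]
  simp only [Set.mem_sdiff, mem_ofPred_eq, Metric.mem_ball, dist_zero_right]
  have h2 : P 2 = 19 / 15 := by unfold P; norm_num
  constructor
  · rintro ⟨h1 | h1, h3⟩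
    · have := norm_nonneg x
      nlinarith
    · exfalso
      apply h3
      rw [← h2]
      exact P_strictMono h1
  · intro h1
    have h4 : ‖x‖ ^ 2 < 1 := by
      have := norm_nonneg x
      nlinarith
    refine ⟨Or.inl h4, ?_⟩
    intro h3
    rw [← h2] at h3
    have := P_strictMono.lt_iff_lt.mp h3
    linarith

lemma card_components :
    ENat.card (ConnectedComponents ↥(HessPos f \ {x : E 2 | 19 / 15 < f x})) = 1 := by
  have hconn : IsConnected (HessPos f \ {x : E 2 | 19 / 15 < f x}) := by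
    rw [region_eq]
    exact (convex_ball (0 : E 2) 1).isConnected ⟨0, by simp⟩
  have : ConnectedSpace ↥(HessPos f \ {x : E 2 | 19 / 15 < f x}) :=
    isConnected_iff_connectedSpace.mp hconn
  rw [ENat.card_eq_one_iff_unique]
  exact ⟨⟨⟨Classical.arbitrary _⟩, fun a => Subsingleton.elim _ _⟩⟩

lemma three_le_val : 3 ≤ Val (gradient f) := by
  -- three radii
  set k : ℝ → ℝ := fun r => 2 * r - r ^ 3 + r ^ 5 / 5 with hk
  have hkc : Continuous k := by rw [hk]; fun_prop
  have i1 : (23 / 20 : ℝ) ∈ k '' Icc 0 1 := by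
    apply intermediate_value_Icc (by norm_num) hkc.continuousOn
    constructor <;> simp only [hk] <;> norm_num
  have i2 : (23 / 20 : ℝ) ∈ k '' Icc 1 (7 / 5) := by
    apply intermediate_value_Icc' (by norm_num) hkc.continuousOn
    constructor <;> simp only [hk] <;> norm_num
  have i3 : (23 / 20 : ℝ) ∈ k '' Icc (7 / 5) 2 := by
    apply intermediate_value_Icc (by norm_num) hkc.continuousOn
    constructor <;> simp only [hk] <;> norm_num
  obtain ⟨r1, ⟨a1, b1⟩, c1⟩ := i1
  obtain ⟨r2, ⟨a2, b2⟩, c2⟩ := i2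
  obtain ⟨r3, ⟨a3, b3⟩, c3⟩ := i3
  have hk1 : k 1 ≠ 23 / 20 := by simp only [hk]; norm_num
  have hk2 : k (7 / 5) ≠ 23 / 20 := by simp only [hk]; norm_num
  have l1 : r1 < 1 := lt_of_le_of_ne b1 (fun h => hk1 (h ▸ c1))
  have l2 : r2 < 7 / 5 := lt_of_le_of_ne b2 (fun h => hk2 (h ▸ c2))
  have hr0 : ∀ r, 0 ≤ r → k r = 23 / 20 → r • e1 ∈ gradient f ⁻¹' {((23 / 20 : ℝ)) • e1} := by
    intro r hr hkr
    rw [mem_preimage, mem_singleton_iff, gradient_f, norm_smul_e1 hr, smul_smul]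
    congr 1
    rw [← hkr]
    simp only [hk, P1]
    ring
  have hne : ∀ r s : ℝ, r ≠ s → r • e1 ≠ s • e1 := by
    intro r s hrs heq
    apply hrs
    have h1 : (r • e1) 0 = (s • e1) 0 := by rw [heq]
    simpa [e1] using h1
  have hsub : ({r1 • e1, r2 • e1, r3 • e1} : Set (E 2)) ⊆ gradient f ⁻¹' {((23 / 20 : ℝ)) • e1} := by
    rintro x (rfl | rfl | rfl)
    · exact hr0 r1 a1 c1
    · exact hr0 r2 (by linarith) c2
    · exact hr0 r3 (by linarith) c3
  have hcard : ({r1 • e1, r2 • e1, r3 • e1} : Set (E 2)).encard = 3 := by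
    rw [encard_insert_of_notMem, encard_pair (hne _ _ (by linarith))]
    · norm_num
    · rintro (h | h)
      · exact hne r1 r2 (by linarith) h
      · exact hne r1 r3 (by linarith) h
  calc (3 : ℕ∞) = ({r1 • e1, r2 • e1, r3 • e1} : Set (E 2)).encard := hcard.symm
    _ ≤ (gradient f ⁻¹' {((23 / 20 : ℝ)) • e1}).encard := encard_le_encard hsub
    _ ≤ Val (gradient f) := le_iSup (fun y => (gradient f ⁻¹' {y}).encard) _

/-- **There is a function on `ℝ²` satisfying (H) for which both equalities fail.** -/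
theorem result : ∃ (n : ℕ) (f : E n → ℝ) (c : ℝ), 1 ≤ n ∧ HypH f c ∧
    Val (gradient f) ≠ (Crit f).encard ∧
    (Crit f).encard ≠ ENat.card (ConnectedComponents ↥(HessPos f \ {x | c < f x})) + 1 := by
  refine ⟨2, f, 19 / 15, by norm_num, hypH_f, ?_, ?_⟩
  · rw [crit_f, encard_singleton]
    intro h
    have := three_le_val
    rw [h] at this
    norm_num at this
  · rw [crit_f, encard_singleton, card_components]
    norm_num

end Pool.Agent.Results.MP_d7bb9e_an.ValenceCounterexample
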